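import Pool.Agent.Helper20.KS.Stm

/-! Project KS, package GEO: segments in rational directions. -/

set_option autoImplicit false

open Finset Filter Topology

namespace Pool.Agent.Helper31.KS

open Pool.Agent.Helper20.KS

theorem seg (n : ℕ) (K : Set (EuclideanSpace ℝ (Fin (n + 1)))) (hKak : IsKakeya K) (M : ℕ)
    (hM : 1 ≤ M) (v : Fin n → ℕ) (hv : ∀ k, v k < M) :
    ∃ a : EuclideanSpace ℝ (Fin (n + 1)), a ∈ K ∧
      ∀ s ∈ Set.Icc (0 : ℝ) (1 / Real.sqrt (n + 1)), ∃ y ∈ K,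
        (∀ k : Fin n, y k.castSucc = a k.castSucc + s * ((v k : ℝ) / M)) ∧
          y (Fin.last n) = a (Fin.last n) + s := by
  have hM0 : (0 : ℝ) < M := by exact_mod_cast hM
  obtain ⟨u, hu⟩ : ∃ u : EuclideanSpace ℝ (Fin (n + 1)),
    u = WithLp.toLp 2 (Fin.snoc (α := fun _ => ℝ) (fun k : Fin n => (v k : ℝ) / M) 1) := ⟨_, rfl⟩
  have hu1 : ∀ k : Fin n, u k.castSucc = (v k : ℝ) / M := by
    intro k
    rw [hu]
    simp
  have hu2 : u (Fin.last n) = 1 := by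
    rw [hu]
    simp
  have hle : ∀ k : Fin n, (0 : ℝ) ≤ (v k : ℝ) / M ∧ (v k : ℝ) / M ≤ 1 := by
    intro k
    refine ⟨by positivity, ?_⟩
    rw [div_le_one hM0]
    exact_mod_cast (hv k).le
  have hsq : ‖u‖ ^ 2 = ∑ k : Fin n, ((v k : ℝ) / M) ^ 2 + 1 := by
    rw [EuclideanSpace.norm_sq_eq, Fin.sum_univ_castSucc, hu2]
    simp only [hu1, Real.norm_eq_abs, sq_abs, one_pow]
  have hn1 : ‖u‖ ^ 2 ≤ n + 1 := by
    rw [hsq]
    have : ∑ k : Fin n, ((v k : ℝ) / M) ^ 2 ≤ ∑ _k : Fin n, (1 : ℝ) := by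
      refine Finset.sum_le_sum fun k _ => ?_
      have := hle k
      nlinarith
    simp only [Finset.sum_const, Finset.card_univ, Fintype.card_fin, nsmul_eq_mul, mul_one] at this
    linarith
  have hn2 : 1 ≤ ‖u‖ ^ 2 := by
    rw [hsq]
    have : 0 ≤ ∑ k : Fin n, ((v k : ℝ) / M) ^ 2 := Finset.sum_nonneg fun k _ => sq_nonneg _
    linarith
  have hpos : 0 < ‖u‖ := by
    rcases (norm_nonneg u).eq_or_lt with h | h
    · rw [← h] at hn2
      norm_num at hn2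
    · exact h
  have hle2 : ‖u‖ ≤ Real.sqrt (n + 1) := Real.le_sqrt_of_sq_le hn1
  have hspos : 0 < Real.sqrt (n + 1) := lt_of_lt_of_le hpos hle2
  obtain ⟨a, ha⟩ := hKak (‖u‖⁻¹ • u) (by rw [norm_smul, norm_inv, norm_norm, inv_mul_cancel₀ hpos.ne'])
  refine ⟨a, ?_, ?_⟩
  · have := ha 0 ⟨le_rfl, zero_le_one⟩
    rwa [zero_smul, add_zero] at this
  · rintro s ⟨hs0, hs1⟩
    have h1 : s * ‖u‖ ≤ 1 := by
      calc s * ‖u‖ ≤ 1 / Real.sqrt (n + 1) * Real.sqrt (n + 1) :=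
            mul_le_mul hs1 hle2 hpos.le (by positivity)
        _ = 1 := by field_simp
    have h2 := ha (s * ‖u‖) ⟨by positivity, h1⟩
    have h3 : (s * ‖u‖) • ‖u‖⁻¹ • u = s • u := by
      rw [smul_smul, mul_assoc, mul_inv_cancel₀ hpos.ne', mul_one]
    rw [h3] at h2
    refine ⟨_, h2, fun k => ?_, ?_⟩
    · rw [PiLp.add_apply, PiLp.smul_apply, hu1, smul_eq_mul]
    · rw [PiLp.add_apply, PiLp.smul_apply, hu2, smul_eq_mul, mul_one]

theorem geo : S_GEO := by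
  classical
  intro n K hK hKak
  obtain ⟨H, hH⟩ := hK.exists_norm_le
  obtain ⟨w, hw⟩ : ∃ w : ℝ, w = 1 / Real.sqrt (n + 1) / 2 := ⟨_, rfl⟩
  have hs : 0 < Real.sqrt ((n : ℝ) + 1) := Real.sqrt_pos.2 (by positivity)
  have hw0 : 0 < w := by rw [hw]; positivity
  have hw2 : 2 * w = 1 / Real.sqrt (n + 1) := by rw [hw]; ring
  obtain ⟨Z, hZ⟩ : ∃ Z : Finset ℤ, Z = Finset.Icc ⌈-H / w⌉ ⌈H / w⌉ := ⟨_, rfl⟩
  refine ⟨w, Z.card + 1, hw0, by linarith [Nat.cast_nonneg (α := ℝ) Z.card], fun M hM => ?_⟩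
  have key := seg n K hKak M hM
  choose! a ha1 ha2 using key
  obtain ⟨F, hF⟩ : ∃ F : Finset (Fin n → ℕ), F = Fintype.piFinset (fun _ : Fin n => Finset.range M) :=
    ⟨_, rfl⟩
  have hFmem : ∀ v, v ∈ F ↔ ∀ k, v k < M := by
    intro v
    rw [hF, Fintype.mem_piFinset]
    simp
  have hFcard : F.card = M ^ n := by
    rw [hF, Fintype.card_piFinset]
    simp
  have hmaps : ∀ v ∈ F, ⌈a v (Fin.last n) / w⌉ ∈ Z := by
    intro v hv
    have h1 := hH _ (ha1 v ((hFmem v).1 hv))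
    have h2 : |a v (Fin.last n)| ≤ H := by
      rw [← Real.norm_eq_abs]
      exact (PiLp.norm_apply_le (a v) (Fin.last n)).trans h1
    rw [abs_le] at h2
    rw [hZ, Finset.mem_Icc]
    exact ⟨Int.ceil_le_ceil (div_le_div_of_nonneg_right h2.1 hw0.le),
      Int.ceil_le_ceil (div_le_div_of_nonneg_right h2.2 hw0.le)⟩
  have h0F : (fun _ => 0 : Fin n → ℕ) ∈ F := (hFmem _).2 fun _ => hM
  have hZne : Z.Nonempty := ⟨_, hmaps _ h0F⟩
  have hZpos : (0 : ℝ) < Z.card := by exact_mod_cast hZne.card_pos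
  obtain ⟨z, hz, hzc⟩ := Finset.exists_le_card_fiber_of_nsmul_le_card_of_maps_to hmaps hZne
    (b := (F.card : ℝ) / Z.card) (by
      rw [nsmul_eq_mul, mul_div_cancel₀ _ hZpos.ne'])
  refine ⟨w * z, F.filter (fun v => ⌈a v (Fin.last n) / w⌉ = z),
    fun v k => a v k.castSucc + (w * z - a v (Fin.last n)) * ((v k : ℝ) / M), ?_, ?_, ?_⟩
  · intro v hv
    exact (hFmem v).1 (Finset.mem_filter.1 hv).1
  · rw [div_le_iff₀ hZpos] at hzc
    rw [hFcard] at hzc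
    push_cast at hzc
    have : (0 : ℝ) ≤ ((F.filter (fun v => ⌈a v (Fin.last n) / w⌉ = z)).card : ℝ) :=
      Nat.cast_nonneg _
    nlinarith
  · rintro v hv s ⟨hs0, hs1⟩
    obtain ⟨hvF, hvz⟩ := Finset.mem_filter.1 hv
    have h1 : a v (Fin.last n) / w ≤ z := by
      rw [← hvz]
      exact Int.le_ceil _
    have h2 : (z : ℝ) < a v (Fin.last n) / w + 1 := by
      rw [← hvz]
      exact Int.ceil_lt_add_one _
    rw [div_le_iff₀ hw0] at h1
    have h3 : (z : ℝ) * w < a v (Fin.last n) + w := by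
      have := mul_lt_mul_of_pos_right h2 hw0
      rwa [add_mul, div_mul_cancel₀ _ hw0.ne', one_mul] at this
    obtain ⟨y, hy, hy1, hy2⟩ := ha2 v ((hFmem v).1 hvF) (w * z - a v (Fin.last n) + s)
      ⟨by linarith, by rw [← hw2]; linarith⟩
    refine ⟨y, hy, fun k => ?_, ?_⟩
    · rw [hy1]
      ring
    · rw [hy2]
      ring

end Pool.Agent.Helper31.KS
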